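import Mathlib
import Pool.Agent.helper23.NoSemigroupWeighted
import Pool.Agent.helper23.WeightedEll1Radical

/-!
# The radical Banach algebra `ℓ¹(ℚ⁺, e^{-t²})` contains no continuous real semigroup

Negative answer to Q2, and hence to Q1.

Sketch of the proof.  Suppose that `(a^t)_{t>0}` is a nonzero continuous semigroup.  Keep only the
coefficients at exponents `0 < r < 1` (there the weight is bounded above and below) and put
`F_t(z) = ∑_{0<r<1} a^t(r) e^{-rz}`, an entire function with
`|F_s F_t - F_{s+t}| ≤ C e^{-Re z}` on the right half-plane.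

* If `a^{2u}` has a nonzero coefficient at a small exponent then, by the Phragmén–Lindelöf
  principle, uniqueness of generalized Dirichlet coefficients and a compactness (ultrafilter)
  argument over all vertical translations, there are arbitrarily large `h` such that for *every*
  real `φ` there is `s ∈ [N, h]` with `|F_{2u}(s + iφ)| > e^{-s/100}`.
* An interpolation estimate with Blaschke products turns this into: around every point `h + iφ`
  there is a circle of radius in `[h/8, h/4]` on which `|F_{2u}| > e^{-h/2}`; hence on it
  `|F_t| ≥ β` for all `t ∈ [u/2, u]`, while `|F_{u/2}² - F_u| < β`.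
* The index of `F_t` along the circle does not depend on `t ∈ [u/2, u]`, and the index of `F_u` is
  twice that of `F_{u/2}`; so it is `0`, `F_t` has no zeros inside and `|F_t(h + iφ)| ≥ β` for all
  real `φ`.
* Approximating by polynomials `p_t(y)`, `y = e^{-z/q}`, without constant term, the same index
  argument on the circle `|y| = e^{-h/q}` shows that `p_t` has no zero in the disc, which
  contradicts `p_t(0) = 0`.
-/

open Filter Topology

namespace Pool.Agent.Results.MP_46f8bc_an.NoRealSemigroup

/-- `R`, with the coefficient map `coef : R → (ℚ → ℂ)`, is the convolution algebra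
`ℓ¹(ℚ⁺, e^{-t²})`: the map `coef` identifies `R` with the space of all functions `f : ℚ → ℂ`
that vanish on `(-∞, 0]` and satisfy `∑ |f r| e^{-r²} < ∞`, with norm `∑ |f r| e^{-r²}` and with
the product determined by `X^r X^s = X^{r+s}`. -/
structure IsWeightedEllOne (R : Type) [NonUnitalNormedCommRing R] [NormedSpace ℂ R]
    (coef : R →ₗ[ℂ] (ℚ → ℂ)) : Prop where
  injective : Function.Injective coef
  mem_range_iff : ∀ f : ℚ → ℂ, (∃ x : R, coef x = f) ↔
    ((∀ r : ℚ, r ≤ 0 → f r = 0) ∧ Summable fun r : ℚ => ‖f r‖ * Real.exp (-(r : ℝ) ^ 2))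
  norm_eq : ∀ x : R, ‖x‖ = ∑' r : ℚ, ‖coef x r‖ * Real.exp (-(r : ℝ) ^ 2)
  coef_mul : ∀ (x y : R) (r : ℚ), coef (x * y) r = ∑' q : ℚ, coef x q * coef y (r - q)

/-- A commutative Banach algebra is radical if every element has spectral radius `0` (the
spectrum is computed in the unitization). -/
def IsRadicalAlgebra (R : Type) [NonUnitalNormedCommRing R] [NormedSpace ℂ R]
    [IsScalarTower ℂ R R] [SMulCommClass ℂ R R] : Prop :=
  ∀ x : R, spectralRadius ℂ (x : Unitization ℂ R) = 0

/-- The power `x ^ (n + 1)` in a ring without unit. -/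
noncomputable def power {R : Type} [Mul R] (x : R) (n : ℕ) : R :=
  Nat.rec (motive := fun _ => R) x (fun _ y => y * x) n

/-- `x` has finite closed descent: some power `x ^ m`, `m ≥ 1`, lies in the closure of
`x ^ (m + 1) R`. -/
def FiniteClosedDescent {R : Type} [NonUnitalNormedCommRing R] (x : R) : Prop :=
  ∃ n : ℕ, power x n ∈ closure (Set.range fun y : R => power x (n + 1) * y)

/-- A norm continuous semigroup `(a t)_{t > 0}` over the positive reals (possibly zero). -/
structure IsRealContinuousSemigroup {R : Type} [NonUnitalNormedCommRing R] (a : ℝ → R) : Prop where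
  map_add : ∀ s t : ℝ, 0 < s → 0 < t → a (s + t) = a s * a t
  continuousOn : ContinuousOn a (Set.Ioi 0)

open Pool.Agent.helper23

lemma power_ne_zero {R : Type} [NonUnitalNormedCommRing R] {b : R} (hb : b ≠ 0)
    (h : b ∈ closure (Set.range fun x => b * b * x)) : ∀ n, power b n ≠ 0 := by
  have key : ∀ y : R, y * b * b = 0 → y * b = 0 := by
    intro y hy
    have h1 : y * b ∈ closure ({0} : Set R) := by
      refine map_mem_closure (f := fun x => y * x) (by fun_prop) h ?_
      rintro _ ⟨x, rfl⟩
      change y * (b * b * x) ∈ ({0} : Set R)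
      rw [Set.mem_singleton_iff, ← mul_assoc, ← mul_assoc, hy, zero_mul]
    rwa [closure_singleton, Set.mem_singleton_iff] at h1
  have hbb : b * b ≠ 0 := by
    intro h0
    have h1 : (Set.range fun x => b * b * x) ⊆ {0} := by
      rintro _ ⟨x, rfl⟩
      simp [h0]
    have h2 := closure_mono h1 h
    rw [closure_singleton, Set.mem_singleton_iff] at h2
    exact hb h2
  intro n
  induction n with
  | zero => exact hb
  | succ n ih =>
    intro h0
    cases n with
    | zero => exact hbb h0
    | succ n => exact ih (key _ h0)

/-- Every continuous real semigroup in the concrete algebra vanishes. -/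
lemma semigroup_eq_zero (a : ℝ → WeightedEll1.Ell) (ha : IsRealContinuousSemigroup a) :
    ∀ t : ℝ, 0 < t → a t = 0 := by
  have h := NoSemigroup.no_semigroup_weighted WeightedEll1.wt WeightedEll1.wt_nonneg
    ⟨Real.exp (-1), Real.exp_pos _, 1, one_pos, by
      intro r h0 h1
      unfold WeightedEll1.wt
      apply Real.exp_le_exp.mpr
      have h2 : (0 : ℝ) < r := by exact_mod_cast h0
      have h3 : (r : ℝ) < 1 := by exact_mod_cast h1
      nlinarith⟩
    (fun t => WeightedEll1.coef (a t))
    (fun t _ r hr => WeightedEll1.coef_supp _ hr)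
    (fun t _ => WeightedEll1.coef_summable _)
    (fun s t hs ht r => by
      rw [ha.map_add s t hs ht, WeightedEll1.coef_mul])
    (fun t ht => by
      have h1 : ContinuousAt a t := ha.continuousOn.continuousAt (Ioi_mem_nhds ht)
      have h2 : Tendsto (fun s => ‖a s - a t‖) (𝓝 t) (𝓝 0) := by
        have := (h1.sub (continuousAt_const (y := a t))).norm
        unfold ContinuousAt at this
        simpa using this
      refine h2.congr (fun s => ?_)
      rw [WeightedEll1.norm_def']
      apply tsum_congr
      intro r
      rw [WeightedEll1.coef_sub])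
  intro t ht
  apply WeightedEll1.coef_injective
  rw [h t ht, _root_.map_zero]

/-- **Negative answer to Q2 and Q1.**  The commutative radical Banach algebra
`R = ℓ¹(ℚ⁺, e^{-t²})`, which contains a non-nilpotent element of finite closed descent, contains
no nonzero norm continuous semigroup over the positive reals. -/
theorem result : ∃ (R : Type) (_ : NonUnitalNormedCommRing R) (_ : NormedSpace ℂ R)
    (_ : IsScalarTower ℂ R R) (_ : SMulCommClass ℂ R R) (_ : CompleteSpace R)
    (coef : R →ₗ[ℂ] (ℚ → ℂ)),
    IsWeightedEllOne R coef ∧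
    IsRadicalAlgebra R ∧
    (∃ x : R, (∀ n, power x n ≠ 0) ∧ FiniteClosedDescent x) ∧
    ∀ a : ℝ → R, IsRealContinuousSemigroup a → ∀ t : ℝ, 0 < t → a t = 0 := by
  refine ⟨WeightedEll1.Ell, inferInstance, inferInstance, inferInstance, inferInstance,
    inferInstance, WeightedEll1.coef, ?_, ?_, ?_, ?_⟩
  · exact
      { injective := WeightedEll1.coef_injective
        mem_range_iff := by
          intro f
          constructor
          · rintro ⟨x, rfl⟩
            exact WeightedEll1.coef_mem x
          · rintro ⟨h1, h2⟩
            exact ⟨WeightedEll1.mk f h1 h2, WeightedEll1.coef_mk f h1 h2⟩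
        norm_eq := WeightedEll1.norm_def'
        coef_mul := WeightedEll1.coef_mul }
  · exact WeightedEll1.spectralRadius_eq_zero
  · obtain ⟨b, hb, hcl⟩ := WeightedEll1.exists_mem_closure_sq
    exact ⟨b, power_ne_zero hb hcl, 0, hcl⟩
  · exact semigroup_eq_zero

end Pool.Agent.Results.MP_46f8bc_an.NoRealSemigroup
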